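import Pool.Agent.Lib.MP_276eaf_co.Defs
import Pool.Agent.Lib.MP_276eaf_co.CoreDefs
import Pool.Agent.Lib.MP_276eaf_co.Lower

set_option autoImplicit false

namespace Pool.Agent.Results.MP_276eaf_co.CoreBasis

open Pool.Agent.Lib.MP_276eaf_co

theorem result : ∀ (k : ℕ) (π : Equiv.Perm (Fin k)), Unavoidable π ↔
    (Avoids p1423 π ∧ Avoids p461352 π ∧ Avoids p463152 π ∧ Avoids p5736142 π) :=
  fun _ π => core_iff π

end Pool.Agent.Results.MP_276eaf_co.CoreBasis
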